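import Pool.Agent.T6.H39.EP.H

/-!
# Extension to the edge, almost periodicity and value distribution of `L(E/K, s)` on the edge

`E_1, …, E_r` are arbitrary elliptic curves over arbitrary number fields `K_1, …, K_r`.  No
continuation of their L-functions across the edge `Re s = 3/2` of the half-plane of absolute
convergence is known in general.  The theorem extends `log L(E_j/K_j, s)` to the closed half-plane
`Re s ≥ 3/2` in the mean square over unit segments, uniformly along the whole line, and describes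
the boundary functions on the whole line: they are almost periodic in the sense of Stepanov, with
common almost periods, and have a joint limiting distribution, uniformly in the position of the
segment; it is that of the Euler products in which the phases `p^{-iu}` are replaced by independent
random variables.
-/

set_option autoImplicit false

namespace Pool.Agent.Results.MP_bf61d2_nt.EdgeAlmostPeriodicity

open NumberField IsDedekindDomain MeasureTheory Filter Topology
open scoped BoundedContinuousFunction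

/-- `W v` is, for every finite place `v`, an integral model of `E` with discriminant minimal at
`v`. -/
def MinimalModels {K : Type} [Field K] [NumberField K] (E : WeierstrassCurve K)
    (W : HeightOneSpectrum (𝓞 K) → WeierstrassCurve (𝓞 K)) : Prop :=
  ∀ v : HeightOneSpectrum (𝓞 K),
    (∃ C : WeierstrassCurve.VariableChange K, C • (W v).map (algebraMap (𝓞 K) K) = E) ∧
    ∀ W' : WeierstrassCurve (𝓞 K),
      (∃ C : WeierstrassCurve.VariableChange K, C • W'.map (algebraMap (𝓞 K) K) = E) →
      ∀ n : ℕ, (W v).Δ ∈ v.asIdeal ^ n → W'.Δ ∈ v.asIdeal ^ n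

section
variable {K : Type} [Field K] [NumberField K]
  (W : HeightOneSpectrum (𝓞 K) → WeierstrassCurve (𝓞 K))

open Classical in
/-- The Euler factor at `v`, `(1 - a_v Nv^{-s} + Nv^{1-2s})⁻¹` if the reduction at `v` is good and
`(1 - a_v Nv^{-s})⁻¹` if it is bad, where `a_v` is `Nv` minus the number of affine points of the
reduction of `W v` (for bad reduction this is `1`, `-1`, `0` in the split multiplicative, non-split
multiplicative, additive case). -/
noncomputable def localFactor (v : HeightOneSpectrum (𝓞 K)) (s : ℂ) : ℂ :=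
  (1 - ((Ideal.absNorm v.asIdeal : ℂ)
        - (Nat.card {xy : (𝓞 K ⧸ v.asIdeal) × (𝓞 K ⧸ v.asIdeal) //
            ((W v).map (Ideal.Quotient.mk v.asIdeal)).toAffine.Equation xy.1 xy.2} : ℂ))
        * (Ideal.absNorm v.asIdeal : ℂ) ^ (-s)
    + (if (W v).Δ ∈ v.asIdeal then 0 else (Ideal.absNorm v.asIdeal : ℂ))
        * (Ideal.absNorm v.asIdeal : ℂ) ^ (-2 * s))⁻¹

/-- The `L`-function, as the Euler product over all finite places. -/
noncomputable def LSeries (s : ℂ) : ℂ := ∏' v : HeightOneSpectrum (𝓞 K), localFactor W v s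

/-- `log L(E/K, s)`: the sum of the (principal) logarithms of all Euler factors. -/
noncomputable def logL (s : ℂ) : ℂ :=
  ∑' v : HeightOneSpectrum (𝓞 K), Complex.log (localFactor W v s)

/-- The contribution to `log L(E/K, s)` of the places above the rational prime `p`. -/
noncomputable def logAt (p : ℕ) (s : ℂ) : ℂ :=
  ∑ᶠ v ∈ {v : HeightOneSpectrum (𝓞 K) | (p : 𝓞 K) ∈ v.asIdeal},
    Complex.log (localFactor W v s)

end

/-- The point `3/2 + iu` of the edge. -/
noncomputable def edge (u : ℝ) : ℂ := 3 / 2 + u * Complex.I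

/-- The angle `|s - (3/2 + iu)| ≤ C (Re s - 3/2)` in the half-plane `Re s > 3/2`. -/
def angle (u C : ℝ) : Set ℂ := {s : ℂ | 3 / 2 < s.re ∧ ‖s - edge u‖ ≤ C * (s.re - 3 / 2)}

/-- The mean square of `f` over `[t, t + 1]`. -/
noncomputable def meanSq (f : ℝ → ℂ) (t : ℝ) : ENNReal :=
  ∫⁻ u in Set.Icc t (t + 1), ENNReal.ofReal (‖f u‖ ^ 2)

/-- The vector `(f_1(u), …, f_r(u))`. -/
noncomputable def vec {r : ℕ} (f : Fin r → ℝ → ℂ) (u : ℝ) : EuclideanSpace ℂ (Fin r) :=
  WithLp.toLp 2 fun j => f j u

/-- The mean of `exp (i Re ∑_j conj(ξ_j) log L_p(E_j, 3/2 + iu))`, where `L_p` is the product of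
the Euler factors above `p`, over the period `2π / log p`: the characteristic function of the
`p`-part of the Euler products. -/
noncomputable def localMean {r : ℕ} {K : Fin r → Type} [∀ j, Field (K j)]
    [∀ j, NumberField (K j)] (W : ∀ j, HeightOneSpectrum (𝓞 (K j)) → WeierstrassCurve (𝓞 (K j)))
    (ξ : EuclideanSpace ℂ (Fin r)) (p : ℕ) : ℂ :=
  ((Real.log p / (2 * Real.pi) : ℝ) : ℂ) * ∫ u in (0 : ℝ)..(2 * Real.pi / Real.log p),
    Complex.exp (((∑ j, ((starRingEnd ℂ) (ξ j) * logAt (W j) p (edge u)).re : ℝ) : ℂ) * Complex.I)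

/-- **Extension to the edge, almost periodicity and value distribution on the edge.**  Let
`E_1, …, E_r` be elliptic curves over number fields `K_1, …, K_r`.  For `Re s > 3/2` the series
`log L(E_j/K_j, s)` of the logarithms of the Euler factors converges absolutely, to an analytic
logarithm of `L(E_j/K_j, s)`.  There are functions `λ_1, …, λ_r` on the real line and a constant `C`
such that:

1. outside a set of Hausdorff dimension `0`, `log L(E_j/K_j, s)` tends to `λ_j(u)` as `s` tends to
   `3/2 + iu` in any angle;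
2. the mean square of `log L(E_j/K_j, 3/2 + δ + iu) - λ_j(u)` over every segment of length `1` is at
   most `C δ`;
3. the mean square of `λ_j(u + h) - λ_j(u)` over every segment of length `1` is at most `C |h|`;
4. for every `ε > 0` there is `l` such that every segment of length `l` contains a `τ` such that the
   mean squares of all `λ_j(u + τ) - λ_j(u)` over every segment of length `1` are at most `ε`;
5. `(λ_1, …, λ_r)` has a limiting distribution `μ`: for every bounded continuous `φ` the mean of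
   `φ(λ_1(u), …, λ_r(u))` over `[t, t + H]` tends to the integral of `φ`, uniformly in `t`, as `H`
   tends to infinity; the characteristic function of `μ` is the product over the primes `p` of the
   local means `localMean`. -/
theorem result (r : ℕ) (K : Fin r → Type) [∀ j, Field (K j)] [∀ j, NumberField (K j)]
    (E : ∀ j, WeierstrassCurve (K j)) [∀ j, (E j).IsElliptic]
    (W : ∀ j, HeightOneSpectrum (𝓞 (K j)) → WeierstrassCurve (𝓞 (K j)))
    (_ : ∀ j, MinimalModels (E j) (W j)) :
    (∀ j, ∀ s : ℂ, 3 / 2 < s.re → Summable (fun v => Complex.log (localFactor (W j) v s)) ∧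
      Complex.exp (logL (W j) s) = LSeries (W j) s ∧ AnalyticAt ℂ (logL (W j)) s) ∧
    ∃ (lam : Fin r → ℝ → ℂ) (C : ℝ), (∀ j, AEMeasurable (lam j)) ∧
      (∃ N : Set ℝ, dimH N = 0 ∧ ∀ u : ℝ, u ∉ N → ∀ j, ∀ c : ℝ,
        Tendsto (logL (W j)) (𝓝[angle u c] (edge u)) (𝓝 (lam j u))) ∧
      (∀ j, ∀ δ : ℝ, 0 < δ → δ ≤ 1 → ∀ t : ℝ,
        meanSq (fun u => logL (W j) (edge u + δ) - lam j u) t ≤ ENNReal.ofReal (C * δ)) ∧
      (∀ j, ∀ h t : ℝ, meanSq (fun u => lam j (u + h) - lam j u) t ≤ ENNReal.ofReal (C * |h|)) ∧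
      (∀ ε : ℝ, 0 < ε → ∃ l : ℝ, 0 < l ∧ ∀ a : ℝ, ∃ τ ∈ Set.Icc a (a + l), ∀ j, ∀ t : ℝ,
        meanSq (fun u => lam j (u + τ) - lam j u) t ≤ ENNReal.ofReal ε) ∧
      ∃ μ : ProbabilityMeasure (EuclideanSpace ℂ (Fin r)),
        (∀ φ : EuclideanSpace ℂ (Fin r) →ᵇ ℝ, ∀ ε : ℝ, 0 < ε → ∃ H0 : ℝ, 1 ≤ H0 ∧
          ∀ H : ℝ, H0 ≤ H → ∀ t : ℝ,
            |(∫ u in t..(t + H), φ (vec lam u)) / H -
              ∫ z, φ z ∂(μ : Measure (EuclideanSpace ℂ (Fin r)))| ≤ ε) ∧
        ∀ ξ : EuclideanSpace ℂ (Fin r),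
          Tendsto (fun X : ℕ => ∏ p ∈ (Finset.range (X + 1)).filter Nat.Prime, localMean W ξ p)
            atTop (𝓝 (charFun (μ : Measure (EuclideanSpace ℂ (Fin r))) ξ)) := by
  classical
  have hlf : ∀ j v s, localFactor (W j) v s = Pool.Agent.TH339.MP.elf (W j) v s := by
    intro j v s
    have h1 : (Nat.card {xy : (𝓞 (K j) ⧸ v.asIdeal) × (𝓞 (K j) ⧸ v.asIdeal) //
            (((W j) v).map (Ideal.Quotient.mk v.asIdeal)).toAffine.Equation xy.1 xy.2}) =
        Pool.Agent.TH339.MP.affc (((W j) v).map (Ideal.Quotient.mk v.asIdeal)) := by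
      unfold Pool.Agent.TH339.MP.affc
      refine Nat.card_congr (Equiv.subtypeEquivRight fun q => ?_)
      exact WeierstrassCurve.Affine.equation_iff ..
    unfold localFactor Pool.Agent.TH339.MP.elf Pool.Agent.TH339.MP.lfac Pool.Agent.TH339.MP.av
      Pool.Agent.TH339.MP.nm
    rw [h1]
    push_cast
    rfl
  have hlogL : ∀ j s, logL (W j) s = ∑' v, Complex.log (Pool.Agent.TH339.MP.elf (W j) v s) :=
    fun j s => tsum_congr fun v => by rw [hlf]
  choose β hβ1 hβ2 hβ3 using fun j => Pool.Agent.T6.H39.EP.decomp (W j)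
  have D : ∀ j, Pool.Agent.T6.H39.EP.Dec (W j) (β j) := fun j => ⟨hβ1 j, hβ2 j, hβ3 j⟩
  have hfun : ∀ j, logL (W j) =
      fun s => ∑' v, Complex.log (Pool.Agent.TH339.MP.elf (W j) v s) := fun j => funext (hlogL j)
  refine ⟨fun j s hs => ⟨?_, ?_, ?_⟩, ?_⟩
  · simp_rw [hlf]
    exact ((D j).hasSum hs).summable
  · rw [hlogL, (D j).exp_eq hs]
    unfold LSeries
    exact tprod_congr fun v => (hlf j v s).symm
  · rw [hfun]
    exact (D j).analytic hs
  set C : ℝ := ∑ j, Pool.Agent.T6.H39.EP.CK (K j) with hC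
  have hCK0 : ∀ j, 0 ≤ Pool.Agent.T6.H39.EP.CK (K j) := fun j => by
    unfold Pool.Agent.T6.H39.EP.CK
    have := Pool.Agent.T6.H39.EP.CK_aux (K := K j)
    positivity
  have hCK : ∀ j, Pool.Agent.T6.H39.EP.CK (K j) ≤ C := fun j =>
    Finset.single_le_sum (f := fun i => Pool.Agent.T6.H39.EP.CK (K i)) (fun i _ => hCK0 i)
      (Finset.mem_univ j)
  obtain ⟨μ, hμ1, hμ2⟩ := Pool.Agent.T6.H39.EP.joint_law D
  refine ⟨fun j => Pool.Agent.T6.H39.EP.lam (W j) (β j), C, fun j => (D j).aem, ?_, ?_, ?_, ?_,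
    μ, hμ2, ?_⟩
  · refine ⟨⋃ j, Pool.Agent.W350.Edge.divSet (Pool.Agent.TH339.MP.ap
      (Pool.Agent.TH339.MP.bb (β j))), ?_, fun u hu j c => ?_⟩
    · rw [dimH_iUnion]
      simp only [(Pool.Agent.TH339.MP.boundary (D _).hb).2.1]
      simp
    · rw [Set.mem_iUnion, not_exists] at hu
      rw [hfun]
      exact (D j).angle (hu j) c
  · intro j δ h0 h1 t
    have h2 := ((D j).radial h0 h1).mono (mul_le_mul_of_nonneg_right (hCK j) h0.le) t
    rw [hfun]
    exact h2
  · intro j h t
    exact ((D j).shift h).mono (mul_le_mul_of_nonneg_right (hCK j) (abs_nonneg h)) t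
  · intro ε hε
    exact Pool.Agent.T6.H39.EP.joint_periods D hε
  · intro ξ
    refine (hμ1 ξ).congr fun X => ?_
    have hlogAt : ∀ j (p : Nat.Primes) (s : ℂ), logAt (W j) p s =
        Pool.Agent.T6.H39.EP.La (W j) p s := by
      intro j p s
      have hset : {v : HeightOneSpectrum (𝓞 (K j)) | (((p : ℕ)) : 𝓞 (K j)) ∈ v.asIdeal} =
          ((Pool.Agent.TH339.MP.Sp p : Finset (HeightOneSpectrum (𝓞 (K j)))) : Set _) := by
        ext v
        rw [Finset.mem_coe, Pool.Agent.TH339.MP.mem_Sp]
        exact Pool.Agent.T6.H39.EP.mem_iff_pr p v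
      unfold logAt Pool.Agent.T6.H39.EP.La
      rw [hset, finsum_mem_coe_finset]
      exact Finset.sum_congr rfl fun v _ => by rw [hlf]
    have hlm : ∀ p : Nat.Primes, Pool.Agent.T6.H39.EP.lm W ξ p = localMean W ξ (p : ℕ) := by
      intro p
      unfold Pool.Agent.T6.H39.EP.lm localMean
      congr 1
      refine intervalIntegral.integral_congr fun u _ => ?_
      simp only
      congr 3
      refine Finset.sum_congr rfl fun j _ => ?_
      rw [hlogAt]
      rfl
    simp_rw [hlm]
    refine Finset.prod_bij (fun p _ => (p : ℕ)) ?_ ?_ ?_ ?_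
    · intro p hp
      rw [Pool.Agent.T6.H39.EP.mem_Pr] at hp
      rw [Finset.mem_filter, Finset.mem_range]
      exact ⟨by omega, p.2⟩
    · intro p _ q _ hpq
      exact Subtype.ext hpq
    · intro n hn
      rw [Finset.mem_filter, Finset.mem_range] at hn
      exact ⟨⟨n, hn.2⟩, (Pool.Agent.T6.H39.EP.mem_Pr _ _).2 (by
        change n ≤ X
        omega), rfl⟩
    · intro p _
      rfl

end Pool.Agent.Results.MP_bf61d2_nt.EdgeAlmostPeriodicity
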