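import Pool.Agent.T6.H23.HK.Core
import Pool.Agent.T6.H23.HK.EC

/-!
# Elliptic curves over number fields: twists by all Hecke characters on the edge

`K` is an arbitrary number field and `E` an elliptic curve over `K`, given by an integral Weierstrass
equation `W` with discriminant `≠ 0` (every elliptic curve over `K` has one).  For a unitary Hecke
character (Größencharakter) `ψ` of `K`, `L(E ⊗ ψ, s)` is the Euler product over the primes `v` of `K`
whose factor is `(1 - a_v ψ(v) q_v^{-s} + q_v ψ(v)² q_v^{-2s})⁻¹` for all but finitely many `v`,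
`a_v = q_v + 1 - #E(k_v)`.  For the trivial `ψ` it is `L(E/K, s)`, for `ψ(𝔞) = N𝔞^{-iτ}` it is
`L(E/K, s + iτ)`.

The characters `ψ` may have infinite order; those are not characters of Galois groups, and the theorem
is not a statement about Artin twists.  It bounds zeros and poles at the edge point `3/2` of all these
twists together.  Among the twists by characters of infinite order at most one complex conjugate pair
can have a zero or a pole there, and if there is such a pair then the twists by characters of finite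
order have neither.
-/

set_option autoImplicit false

namespace Pool.Agent.Results.MP_bf61d2_nt.HeckeTwists

open Complex Filter Topology NumberField IsDedekindDomain Polynomial

/-- The number of solutions of the affine Weierstrass equation of `V` with coordinates in `R`. -/
noncomputable def affineCount {R : Type} [CommRing R] (V : WeierstrassCurve R) : ℕ :=
  Nat.card {P : R × R // P.2 ^ 2 + V.a₁ * P.1 * P.2 + V.a₃ * P.2 =
    P.1 ^ 3 + V.a₂ * P.1 ^ 2 + V.a₄ * P.1 + V.a₆}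

/-- `a_v = q_v + 1 - #E(k_v)`, `k_v` the residue field of `v` and `q_v` its number of elements; there is
one point at infinity. -/
noncomputable def frobTrace {K : Type} [Field K] [NumberField K] (W : WeierstrassCurve (𝓞 K))
    (v : HeightOneSpectrum (𝓞 K)) : ℤ :=
  (Ideal.absNorm v.asIdeal : ℤ) + 1 - ((affineCount (W.map (Ideal.Quotient.mk v.asIdeal)) : ℤ) + 1)

/-- `∏_w (x_w / |x_w|)^{k_w} |x_w|^{iν_w}`, the product over the infinite places `w` of `K`. -/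
noncomputable def infinityType {K : Type} [Field K] [NumberField K] (k : InfinitePlace K → ℤ)
    (ν : InfinitePlace K → ℝ) (x : K) : ℂ :=
  ∏ w : InfinitePlace K,
    (w.embedding x / ((w x : ℝ) : ℂ)) ^ (k w) * ((w x : ℝ) : ℂ) ^ (((ν w : ℝ) : ℂ) * I)

/-- `ψ` is a unitary Hecke character of `K`, as a function on ideals: it is multiplicative, and for some
nonzero ideal `𝔪`, integers `k_w` and real numbers `ν_w` (`w` the infinite places) it is nonzero exactly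
at the nonzero ideals prime to `𝔪`, and `ψ((x)) = ∏_w (x_w / |x_w|)^{k_w} |x_w|^{iν_w}` for all nonzero
`x ≡ 1 mod 𝔪`. -/
def IsHecke {K : Type} [Field K] [NumberField K] (ψ : Ideal (𝓞 K) →*₀ ℂ) : Prop :=
  ∃ (𝔪 : Ideal (𝓞 K)) (k : InfinitePlace K → ℤ) (ν : InfinitePlace K → ℝ), 𝔪 ≠ ⊥ ∧
    (∀ 𝔞 : Ideal (𝓞 K), 𝔞 ≠ ⊥ → (ψ 𝔞 ≠ 0 ↔ IsCoprime 𝔞 𝔪)) ∧
    (∀ x : 𝓞 K, x ≠ 0 → x - 1 ∈ 𝔪 → ψ (Ideal.span {x}) = infinityType k ν (x : K))

/-- `ψ` and `φ` are equal at all but finitely many primes (the same primitive character). -/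
def Same {K : Type} [Field K] [NumberField K] (ψ φ : Ideal (𝓞 K) →*₀ ℂ) : Prop :=
  ∀ᶠ v : HeightOneSpectrum (𝓞 K) in cofinite, ψ v.asIdeal = φ v.asIdeal

/-- `ψ` and the complex conjugate of `φ` are equal at all but finitely many primes. -/
def Conjugate {K : Type} [Field K] [NumberField K] (ψ φ : Ideal (𝓞 K) →*₀ ℂ) : Prop :=
  ∀ᶠ v : HeightOneSpectrum (𝓞 K) in cofinite, ψ v.asIdeal = (starRingEnd ℂ) (φ v.asIdeal)

/-- `ψ` has infinite order. -/
def InfiniteOrder {K : Type} [Field K] [NumberField K] (ψ : Ideal (𝓞 K) →*₀ ℂ) : Prop :=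
  ∀ n : ℕ, 0 < n → ¬ ∀ᶠ v : HeightOneSpectrum (𝓞 K) in cofinite, ψ v.asIdeal ^ n = 1

/-- The polynomials `B v` are the Euler factors of `E ⊗ ψ` at all but finitely many primes `v`:
`B_v(z) = 1 - a_v ψ(v) z + q_v ψ(v)² z²`. -/
def IsEulerFactor {K : Type} [Field K] [NumberField K] (W : WeierstrassCurve (𝓞 K))
    (ψ : Ideal (𝓞 K) →*₀ ℂ) (B : HeightOneSpectrum (𝓞 K) → ℂ[X]) : Prop :=
  ∀ᶠ v in cofinite, ∀ z : ℂ, (B v).eval z =
    1 - (frobTrace W v : ℂ) * ψ v.asIdeal * z + (Ideal.absNorm v.asIdeal : ℂ) * ψ v.asIdeal ^ 2 * z ^ 2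

/-- The Euler product `∏_v B_v(q_v^{-s})⁻¹`. -/
noncomputable def eulerProduct {K : Type} [Field K] [NumberField K]
    (B : HeightOneSpectrum (𝓞 K) → ℂ[X]) (s : ℂ) : ℂ :=
  ∏' v : HeightOneSpectrum (𝓞 K), ((B v).eval ((Ideal.absNorm v.asIdeal : ℂ) ^ (-s)))⁻¹

/-- `log |L(3/2 + ε)| / log (1/ε)` for the Euler product `L`; it tends to the order of the pole at `3/2`
if there is a meromorphic continuation to a neighbourhood. -/
noncomputable def size {K : Type} [Field K] [NumberField K]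
    (B : HeightOneSpectrum (𝓞 K) → ℂ[X]) (ε : ℝ) : ℝ :=
  Real.log ‖eulerProduct B (3 / 2 + ε)‖ / Real.log (1 / ε)

/-- **All Hecke twists of an elliptic curve over a number field on the edge `Re s = 3/2`.**

For every unitary Hecke character `ψ` of `K` let `L(E ⊗ ψ, s)` be the Euler product with the factors
`B ψ v` (arbitrary, not zero at `q_v^{-3/2}`, at finitely many `v`), and
`x(ψ, ε) = log |L(E ⊗ ψ, 3/2 + ε)| / log(1/ε)`.

1. `L(E ⊗ ψ, 3/2 + ε) ≠ 0` for small `ε > 0`.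
2. (Nothing is assumed about continuation in 1, 2 and 3.)  Let `ψ_1, …, ψ_n` be pairwise different Hecke
characters and `φ_1, …, φ_m` too.  For every `δ > 0` and all sufficiently small `ε > 0`,
`|∑_{j,l} a_j c_l x(ψ_j φ̄_l, ε)| ≤ (2 + δ) (∑_j a_j²)^{1/2} (∑_l c_l²)^{1/2}` for all real `a_j`, `c_l`:
the matrix `(x(ψ_j φ̄_l, ε))` has norm at most `2 + δ`.
3. If `ψ` has infinite order then `|x(ψ, ε)| ≤ 4/π + δ` for all sufficiently small `ε > 0`.
4. Let `A` be a set of Hecke characters closed under products and complex conjugation, and let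
`L(E ⊗ ψ, s)` have a meromorphic continuation to a neighbourhood of `3/2` for all `ψ ∈ A` of infinite
order.  Then either all these `L(E ⊗ ψ, s)` are holomorphic and not zero at `3/2`, or there are `ψ₀ ∈ A`
of infinite order and a sign `e` such that the order at `3/2` is `e` for `ψ₀` and its conjugate, the
order is `0` for all other `ψ ∈ A` of infinite order, and `x(χ, ε) → 0` for all `χ ∈ A` of finite order
(among them the trivial character, for which it is `L(E/K, s)`). -/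
theorem result (K : Type) [Field K] [NumberField K] (W : WeierstrassCurve (𝓞 K)) (hΔ : W.Δ ≠ 0)
    (B : (Ideal (𝓞 K) →*₀ ℂ) → HeightOneSpectrum (𝓞 K) → ℂ[X])
    (hB : ∀ ψ, IsHecke ψ → IsEulerFactor W ψ (B ψ))
    (hB0 : ∀ ψ, IsHecke ψ → ∀ v,
      (B ψ v).eval ((Ideal.absNorm v.asIdeal : ℂ) ^ (-(3 / 2) : ℂ)) ≠ 0) :
    (∀ ψ, IsHecke ψ → ∀ᶠ ε : ℝ in 𝓝[>] 0, eulerProduct (B ψ) (3 / 2 + ε) ≠ 0) ∧
    (∀ (n m : ℕ) (ψ : Fin n → (Ideal (𝓞 K) →*₀ ℂ)) (φ : Fin m → (Ideal (𝓞 K) →*₀ ℂ))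
      (θ : Fin n → Fin m → (Ideal (𝓞 K) →*₀ ℂ)),
      (∀ j, IsHecke (ψ j)) → (∀ l, IsHecke (φ l)) →
      (∀ i j, i ≠ j → ¬ Same (ψ i) (ψ j)) → (∀ k l, k ≠ l → ¬ Same (φ k) (φ l)) →
      (∀ j l 𝔞, θ j l 𝔞 = ψ j 𝔞 * (starRingEnd ℂ) (φ l 𝔞)) →
      ∀ δ : ℝ, 0 < δ → ∀ᶠ ε : ℝ in 𝓝[>] 0, ∀ (a : Fin n → ℝ) (c : Fin m → ℝ),
        |∑ j, ∑ l, a j * c l * size (B (θ j l)) ε| ≤
          (2 + δ) * (√(∑ j, a j ^ 2) * √(∑ l, c l ^ 2))) ∧
    (∀ ψ, IsHecke ψ → InfiniteOrder ψ → ∀ δ : ℝ, 0 < δ → ∀ᶠ ε : ℝ in 𝓝[>] 0,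
      |size (B ψ) ε| ≤ 4 / Real.pi + δ) ∧
    (∀ (A : Set (Ideal (𝓞 K) →*₀ ℂ)) (Λ : (Ideal (𝓞 K) →*₀ ℂ) → ℂ → ℂ), (∀ ψ ∈ A, IsHecke ψ) →
      (∀ ψ ∈ A, ∀ φ ∈ A, ∀ θ : Ideal (𝓞 K) →*₀ ℂ, (∀ 𝔞, θ 𝔞 = ψ 𝔞 * φ 𝔞) → θ ∈ A) →
      (∀ ψ ∈ A, ∀ θ : Ideal (𝓞 K) →*₀ ℂ, (∀ 𝔞, θ 𝔞 = (starRingEnd ℂ) (ψ 𝔞)) → θ ∈ A) →
      (∀ ψ ∈ A, InfiniteOrder ψ → MeromorphicAt (Λ ψ) (3 / 2) ∧
        ∀ᶠ s in 𝓝 (3 / 2 : ℂ), 3 / 2 < s.re → Λ ψ s = eulerProduct (B ψ) s) →
      (∀ ψ ∈ A, InfiniteOrder ψ → meromorphicOrderAt (Λ ψ) (3 / 2) = 0) ∨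
      ∃ ψ₀ ∈ A, InfiniteOrder ψ₀ ∧ ∃ e : ℤ, (e = 1 ∨ e = -1) ∧
        (∀ ψ ∈ A, InfiniteOrder ψ →
          ((Same ψ ψ₀ ∨ Conjugate ψ ψ₀) → meromorphicOrderAt (Λ ψ) (3 / 2) = e) ∧
          (¬ (Same ψ ψ₀ ∨ Conjugate ψ ψ₀) → meromorphicOrderAt (Λ ψ) (3 / 2) = 0)) ∧
        (∀ χ ∈ A, ¬ InfiniteOrder χ → Tendsto (size (B χ)) (𝓝[>] 0) (𝓝 0))) := by
  obtain ⟨α, hα, hα0, hα2⟩ := T6.H23.HK.ec_data K W hΔ
  have hH : ∀ ψ : Ideal (𝓞 K) →*₀ ℂ, IsHecke ψ ↔ T6.H23.HK.IsH ψ := by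
    intro ψ
    constructor
    · rintro ⟨𝔪, k, ν, h1, h2, h3⟩
      exact ⟨𝔪, k, ν, ⟨h1, h2, h3⟩⟩
    · rintro ⟨𝔪, k, ν, ⟨h1, h2, h3⟩⟩
      exact ⟨𝔪, k, ν, h1, h2, h3⟩
  have h32 : (((1 / 2 : ℝ) : ℂ) + 1) = 3 / 2 := by
    push_cast
    ring
  have hfac : ∀ ψ, IsHecke ψ → ∀ᶠ v in cofinite, ∀ z : ℂ, (B ψ v).eval z =
      ∏ j, (1 - α v j * ψ v.asIdeal * z) := by
    intro ψ hψ
    filter_upwards [hα2, hB ψ hψ] with v h1 h2 z
    rw [h1, h2]
    rfl
  have hnv : ∀ ψ, IsHecke ψ → ∀ v, (B ψ v).eval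
      ((Ideal.absNorm v.asIdeal : ℂ) ^ (-(((1 / 2 : ℝ) : ℂ) + 1))) ≠ 0 := by
    intro ψ hψ v
    rw [h32]
    exact hB0 ψ hψ v
  have hsz : ∀ (C : HeightOneSpectrum (𝓞 K) → ℂ[X]), T6.H23.HK.sz (1 / 2) C = size C := by
    intro C
    funext ε
    unfold T6.H23.HK.sz size T6.H23.HK.EPr eulerProduct
    rw [h32]
  set t := T6.H23.HK.tt (K := K) (1 / 2) α with ht
  have ht2 : ∀ v, ‖t v‖ ≤ 2 := fun v => by
    have h := T6.H23.HK.tt_norm (1 / 2) α v
    have h2 : ((2 : ℕ) : ℝ) = 2 := by norm_num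
    rwa [h2] at h
  have htr : ∀ v, (t v).im = 0 := T6.H23.HK.tt_real hα0
  have hms : ∀ ψ, IsHecke ψ →
      Tendsto (fun ε => size (B ψ) ε - T6.H23.HK.me t ψ ε) (𝓝[>] 0) (𝓝 0) := by
    intro ψ hψ
    have h1 := (T6.H23.HK.me_sz hα ((hH ψ).1 hψ) (B ψ) (hfac ψ hψ) (hnv ψ hψ)).2
    rw [hsz] at h1
    exact h1
  refine ⟨?_, ?_, ?_, ?_⟩
  · intro ψ hψ
    have h1 := (T6.H23.HK.me_sz hα ((hH ψ).1 hψ) (B ψ) (hfac ψ hψ) (hnv ψ hψ)).1
    simp only [h32] at h1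
    exact h1
  · intro n m ψ φ θ hψ hφ hdψ hdφ hθ δ hδ
    have hθ' : ∀ j l, θ j l = T6.H23.HK.mulH (ψ j) (T6.H23.HK.conjH (φ l)) := by
      intro j l
      ext 𝔞
      rw [hθ]
      rfl
    have hθH : ∀ j l, IsHecke (θ j l) := by
      intro j l
      rw [hH, hθ']
      exact ((hH _).1 (hψ j)).mul ((hH _).1 (hφ l)).conj
    set N : ℝ := (n : ℝ) * m with hN
    have hN0 : 0 ≤ N := by positivity
    have h1 := T6.H23.HK.matrix_ineq (ψ := ψ) (φ := φ) t (by norm_num : (0 : ℝ) ≤ 2) ht2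
      (fun j => (hH _).1 (hψ j)) (fun l => (hH _).1 (hφ l)) hdψ hdφ (show 0 < δ / 2 by positivity)
    have h2 : ∀ᶠ ε : ℝ in 𝓝[>] 0, ∀ j l,
        |size (B (θ j l)) ε - T6.H23.HK.me t (θ j l) ε| ≤ δ / (2 * (N + 1)) := by
      refine Filter.eventually_all.2 fun j => Filter.eventually_all.2 fun l => ?_
      have h3 := (Metric.tendsto_nhds.1 (hms _ (hθH j l))) (δ / (2 * (N + 1))) (by positivity)
      filter_upwards [h3] with ε hε
      rw [Real.dist_eq, sub_zero] at hε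
      exact hε.le
    filter_upwards [h1, h2] with ε h3 h4 a c
    set X := √(∑ j, a j ^ 2) * √(∑ l, c l ^ 2) with hX
    have hX0 : 0 ≤ X := by positivity
    have hac : ∀ j l, |a j * c l| ≤ X := by
      intro j l
      rw [abs_mul]
      refine mul_le_mul ?_ ?_ (abs_nonneg _) (Real.sqrt_nonneg _)
      · rw [← Real.sqrt_sq_eq_abs]
        exact Real.sqrt_le_sqrt (Finset.single_le_sum (f := fun j => a j ^ 2)
          (fun j _ => sq_nonneg _) (Finset.mem_univ j))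
      · rw [← Real.sqrt_sq_eq_abs]
        exact Real.sqrt_le_sqrt (Finset.single_le_sum (f := fun j => c j ^ 2)
          (fun j _ => sq_nonneg _) (Finset.mem_univ l))
    have h5 : ∑ j, ∑ l, a j * c l * size (B (θ j l)) ε =
        ∑ j, ∑ l, a j * c l * T6.H23.HK.me t (T6.H23.HK.mulH (ψ j) (T6.H23.HK.conjH (φ l))) ε +
        ∑ j, ∑ l, a j * c l * (size (B (θ j l)) ε - T6.H23.HK.me t (θ j l) ε) := by
      rw [← Finset.sum_add_distrib]
      refine Finset.sum_congr rfl fun j _ => ?_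
      rw [← Finset.sum_add_distrib]
      refine Finset.sum_congr rfl fun l _ => ?_
      rw [← hθ']
      ring
    have h6 : |∑ j, ∑ l, a j * c l * (size (B (θ j l)) ε - T6.H23.HK.me t (θ j l) ε)| ≤
        N * (X * (δ / (2 * (N + 1)))) := by
      refine (Finset.abs_sum_le_sum_abs _ _).trans ?_
      calc ∑ j, |∑ l, a j * c l * (size (B (θ j l)) ε - T6.H23.HK.me t (θ j l) ε)|
          ≤ ∑ j : Fin n, ∑ l : Fin m, X * (δ / (2 * (N + 1))) := by
            refine Finset.sum_le_sum fun j _ => (Finset.abs_sum_le_sum_abs _ _).trans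
              (Finset.sum_le_sum fun l _ => ?_)
            rw [abs_mul]
            exact mul_le_mul (hac j l) (h4 j l) (abs_nonneg _) hX0
        _ = N * (X * (δ / (2 * (N + 1)))) := by
            simp only [Finset.sum_const, Finset.card_univ, Fintype.card_fin, nsmul_eq_mul, hN]
            ring
    have h7 : N * (X * (δ / (2 * (N + 1)))) ≤ δ / 2 * X := by
      have : N * (δ / (2 * (N + 1))) ≤ δ / 2 := by
        rw [mul_div_assoc', div_le_div_iff₀ (by positivity) (by norm_num)]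
        nlinarith
      calc N * (X * (δ / (2 * (N + 1)))) = (N * (δ / (2 * (N + 1)))) * X := by ring
        _ ≤ δ / 2 * X := mul_le_mul_of_nonneg_right this hX0
    rw [h5]
    refine (abs_add_le _ _).trans ?_
    have h8 := h3 a c
    calc _ ≤ (2 + δ / 2) * X + δ / 2 * X := add_le_add h8 (h6.trans h7)
      _ = (2 + δ) * X := by ring
  · intro ψ hψ hi δ hδ
    have h1 := T6.H23.HK.inf_bound (by norm_num : (0 : ℝ) ≤ 2) ht2 htr ((hH ψ).1 hψ) hi
      (show 0 < δ / 2 by positivity)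
    have h2 := (Metric.tendsto_nhds.1 (hms _ hψ)) (δ / 2) (by positivity)
    filter_upwards [h1, h2] with ε h3 h4
    rw [Real.dist_eq, sub_zero] at h4
    have h5 : size (B ψ) ε = T6.H23.HK.me t ψ ε + (size (B ψ) ε - T6.H23.HK.me t ψ ε) := by ring
    rw [h5]
    refine (abs_add_le _ _).trans ?_
    calc _ ≤ (2 * (2 / Real.pi) + δ / 2) + δ / 2 := add_le_add h3 h4.le
      _ = 4 / Real.pi + δ := by ring
  · intro A Λ hAH hmul hconj hΛ
    have hord : ∀ ψ ∈ A, InfiniteOrder ψ → ∃ m : ℤ, meromorphicOrderAt (Λ ψ) (3 / 2) = m ∧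
        Tendsto (T6.H23.HK.me t ψ) (𝓝[>] 0) (𝓝 (-(m : ℝ))) := by
      intro ψ hψ hi
      obtain ⟨h1, h2⟩ := hΛ ψ hψ hi
      have h3 := T6.H23.HK.order_me hα ((hH ψ).1 (hAH ψ hψ)) (B ψ) (hfac ψ (hAH ψ hψ))
        (hnv ψ (hAH ψ hψ)) (Λ := Λ ψ) (by rw [h32]; exact h1) (by
          rw [h32]
          filter_upwards [h2] with s hs hs1
          apply hs
          linarith)
      rw [h32] at h3
      exact h3
    have h1 := T6.H23.HK.class_me (A := A) (fun ψ hψ => (hH ψ).1 (hAH ψ hψ))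
      (fun ψ hψ φ hφ => hmul ψ hψ φ hφ _ fun 𝔞 => rfl)
      (fun ψ hψ => hconj ψ hψ _ fun 𝔞 => rfl) ht2 htr
      (fun ψ hψ hi => by
        obtain ⟨m, -, hm⟩ := hord ψ hψ hi
        exact ⟨-m, by push_cast; exact hm⟩)
    have hback : ∀ ψ ∈ A, InfiniteOrder ψ → ∀ x : ℤ,
        Tendsto (T6.H23.HK.me t ψ) (𝓝[>] 0) (𝓝 (x : ℝ)) →
        meromorphicOrderAt (Λ ψ) (3 / 2) = ((-x : ℤ) : WithTop ℤ) := by
      intro ψ hψ hi x hx
      obtain ⟨m, hm, hlim⟩ := hord ψ hψ hi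
      have h2 := tendsto_nhds_unique hx hlim
      have h3 : x = -m := by exact_mod_cast h2
      rw [hm, h3, neg_neg]
    rcases h1 with h1 | ⟨ψ₀, hψ₀, hi₀, e, he, h2, h3⟩
    · left
      intro ψ hψ hi
      have h2 := hback ψ hψ hi 0 (by rw [Int.cast_zero]; exact h1 ψ hψ hi)
      rw [h2]
      rfl
    · right
      refine ⟨ψ₀, hψ₀, hi₀, -e, ?_, fun ψ hψ hi => ⟨fun h => ?_, fun h => ?_⟩, fun χ hχ hf => ?_⟩
      · rcases he with he | he
        · right; omega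
        · left; omega
      · exact hback ψ hψ hi e ((h2 ψ hψ hi).1 h)
      · have h4 := hback ψ hψ hi 0 (by rw [Int.cast_zero]; exact (h2 ψ hψ hi).2 h)
        rw [h4]
        rfl
      · have h4 := (hms χ (hAH χ hχ)).add (h3 χ hχ hf)
        rw [zero_add] at h4
        refine h4.congr fun ε => ?_
        ring

end Pool.Agent.Results.MP_bf61d2_nt.HeckeTwists
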