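import Pool.Agent.T6.H9.MV.Asm

/-!
# Mean values of L-functions of elliptic curves over a number field

Let `K` be any number field and let `E : y² = x³ + a x + b` run over all elliptic curves over `K`
with `a, b` algebraic integers and no prime `v` with `v⁴ ∣ a`, `v⁶ ∣ b`, ordered by the size of the
coordinates of `a` and `b` (in boxes growing independently). For all integers `n_1, …, n_r` the mean
value of `∏ L(E/K, s_k) ^ n_k` (Euler factors above `6` omitted) exists in the region of absolute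
convergence `Re s_k > 3/2`, and as a function of `(s_1, …, s_r)` it continues across the edge
`Re s_k = 3/2`, past the central point `s_k = 1`, to the region `Re s_k > 3/4`:
it is a product of Dedekind zeta functions of `K` times a holomorphic function.
-/

set_option autoImplicit false

namespace Pool.Agent.Results.MP_bf61d2_nt.MeanValues

open Filter Topology NumberField IsDedekindDomain Pool.Agent.T6.H9.MV Pool.Agent.T6.H9.MeanL

section

variable {K : Type} [Field K] [NumberField K] {ι : Type} [Fintype ι] [DecidableEq ι]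

open Classical in
lemma fam_eq (ω : Module.Basis ι ℤ (𝓞 K)) (B : ℕ × ℕ) :
    Fam ω B.1 B.2 = ((((bx ι B).filter fun x => disc (pt ω x) ≠ 0 ∧
      ∀ v : HeightOneSpectrum (𝓞 K), ¬ NonMin v (pt ω x)).image (pt ω) :
        Finset (𝓞 K × 𝓞 K)) : Set (𝓞 K × 𝓞 K)) := by
  ext p
  rw [Finset.mem_coe, Finset.mem_image]
  constructor
  · rintro ⟨h1, h2, h3, h4⟩
    refine ⟨Sum.elim (ω.equivFun p.1) (ω.equivFun p.2), ?_, ?_⟩
    · have hp : pt ω (Sum.elim (ω.equivFun p.1) (ω.equivFun p.2)) = p := by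
        refine Prod.ext ?_ ?_
        · exact ω.equivFun.symm_apply_apply p.1
        · exact ω.equivFun.symm_apply_apply p.2
      rw [Finset.mem_filter, hp]
      refine ⟨?_, h3, h4⟩
      rw [bx, mem_box]
      intro j
      rcases j with j | j
      · exact h1 j
      · exact h2 j
    · refine Prod.ext ?_ ?_
      · exact ω.equivFun.symm_apply_apply p.1
      · exact ω.equivFun.symm_apply_apply p.2
  · rintro ⟨x, hx, rfl⟩
    rw [Finset.mem_filter, bx, mem_box] at hx
    obtain ⟨h1, h3, h4⟩ := hx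
    refine ⟨fun i => ?_, fun i => ?_, h3, h4⟩
    · have h5 : ω.repr (pt ω x).1 i = x (Sum.inl i) := by
        rw [pt_fst, ← Module.Basis.equivFun_apply]
        exact congrFun (ω.equivFun.apply_symm_apply fun i => x (Sum.inl i)) i
      rw [h5]
      exact h1 (Sum.inl i)
    · have h5 : ω.repr (pt ω x).2 i = x (Sum.inr i) := by
        rw [pt_snd, ← Module.Basis.equivFun_apply]
        exact congrFun (ω.equivFun.apply_symm_apply fun i => x (Sum.inr i)) i
      rw [h5]
      exact h1 (Sum.inr i)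

lemma mean_eq (ω : Module.Basis ι ℤ (𝓞 K)) (B : ℕ × ℕ) (F : 𝓞 K × 𝓞 K → ℂ) :
    mean (Fam ω B.1 B.2) F = avg (bx ι B) (fun x => Wt (pt ω x) * F (pt ω x)) /
      avg (bx ι B) (fun x => Wt (pt ω x)) := by
  classical
  have hc : ((bx ι B).card : ℂ) ≠ 0 := by exact_mod_cast (card_box_pos _).ne'
  have h1 : ∀ G : 𝓞 K × 𝓞 K → ℂ, ∑ x ∈ bx ι B, Wt (pt ω x) * G (pt ω x) =
      ∑ x ∈ (bx ι B).filter fun x => disc (pt ω x) ≠ 0 ∧
        ∀ v : HeightOneSpectrum (𝓞 K), ¬ NonMin v (pt ω x), G (pt ω x) := by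
    intro G
    rw [Finset.sum_filter]
    refine Finset.sum_congr rfl fun x _ => ?_
    unfold Wt
    split_ifs <;> simp
  have h2 : ∑ᶠ p ∈ Fam ω B.1 B.2, F p = ∑ x ∈ bx ι B, Wt (pt ω x) * F (pt ω x) := by
    rw [fam_eq, finsum_mem_coe_finset, h1, Finset.sum_image fun x _ y _ h => pt_inj ω h]
  have h3 : ((Fam ω B.1 B.2).ncard : ℂ) = ∑ x ∈ bx ι B, Wt (pt ω x) := by
    rw [fam_eq, Set.ncard_coe_finset, Finset.card_image_of_injective _ (pt_inj ω)]
    have := h1 (fun _ => 1)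
    simp only [mul_one] at this
    rw [this]
    simp
  unfold mean avg
  rw [h2, h3, div_div_div_cancel_right₀ hc]

lemma tendsto_num (ω : Module.Basis ι ℤ (𝓞 K)) {r : ℕ} (n : Fin r → ℤ) {s : Fin r → ℂ}
    (hs : s ∈ Om r (3 / 2)) :
    Tendsto (fun B : ℕ × ℕ => avg (bx ι B)
      (fun x => Wt (pt ω x) * ∏ k, Lfun (pt ω x) (s k) ^ n k)) atTop
      (𝓝 (∏' v : HeightOneSpectrum (𝓞 K), (fmean (gl n s v) - 1 / (qv v : ℂ) ^ 10))) := by
  obtain ⟨β, hβ, hb⟩ := gl_bound (K := K) n hs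
  have h1 := tendsto_family ω (fun v => gl n s v) (fun v => gl_zero n s v) hβ hb
  refine h1.congr fun B => ?_
  unfold avg
  congr 1
  refine Finset.sum_congr rfl fun x _ => ?_
  have h2 : ∏' v, gl n s v (red v (pt ω x)) = ∏ k, Lfun (pt ω x) (s k) ^ n k :=
    tprod_gl n hs (pt ω x)
  exact congrArg (fun z => Wt (pt ω x) * z) h2

lemma tendsto_den (ω : Module.Basis ι ℤ (𝓞 K)) :
    Tendsto (fun B : ℕ × ℕ => avg (bx ι B) (fun x => Wt (pt ω x))) atTop
      (𝓝 (∏' v : HeightOneSpectrum (𝓞 K), ((1 : ℂ) - 1 / (qv v : ℂ) ^ 10))) := by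
  have h1 := tendsto_family ω (fun v _ => (1 : ℂ)) (fun v => rfl)
    (β := fun _ => 0) summable_zero (fun v t => by simp)
  have h2 : ∀ v : HeightOneSpectrum (𝓞 K), fmean (fun _ : kv v × kv v => (1 : ℂ)) = 1 :=
    fun v => fmean_one
  simp only [h2] at h1
  refine h1.congr fun B => ?_
  unfold avg
  congr 1
  refine Finset.sum_congr rfl fun x _ => ?_
  beta_reduce
  rw [tprod_one, mul_one]

lemma tendsto_main (ω : Module.Basis ι ℤ (𝓞 K)) {r : ℕ} (n : Fin r → ℤ) {s : Fin r → ℂ}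
    (hs : s ∈ Om r (3 / 2)) :
    Tendsto (fun B : ℕ × ℕ => mean (Fam ω B.1 B.2) fun p => ∏ k, Lfun p (s k) ^ n k) atTop
      (𝓝 ((∏ p ∈ prs r, dedekindZeta K (s p.1 + s p.2 - 1) ^ ex n p) * Hf K n s)) := by
  have h0 : ∀ B : ℕ × ℕ, mean (Fam ω B.1 B.2) (fun p => ∏ k, Lfun p (s k) ^ n k) =
      avg (bx ι B) (fun x => Wt (pt ω x) * ∏ k, Lfun (pt ω x) (s k) ^ n k) /
        avg (bx ι B) (fun x => Wt (pt ω x)) :=
    fun B => mean_eq ω B (fun p => ∏ k, Lfun p (s k) ^ n k)
  have h1 := tendsto_num ω n hs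
  have h2 := tendsto_den ω
  rw [limit_eq n hs] at h1
  have hne := (ten_prod (K := K)).2
  have h3 := Filter.Tendsto.div h1 h2 hne
  rw [mul_div_cancel_left₀ _ hne] at h3
  rw [funext h0]
  exact h3

end

/-- **Mean values of products of L-functions over the family of all elliptic curves over a number
field continue to `Re s > 3/4`.** -/
theorem result (K : Type) [Field K] [NumberField K] {ι : Type} [Fintype ι]
    (ω : Module.Basis ι ℤ (𝓞 K)) (r : ℕ) (n : Fin r → ℤ) :
    ∃ H : (Fin r → ℂ) → ℂ,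
      DifferentiableOn ℂ H {s | ∀ k, 3 / 4 < (s k).re} ∧
      (∀ s : Fin r → ℂ, (∀ k, 3 / 4 < (s k).re ∧ (s k).im = 0) → H s ≠ 0) ∧
      ∀ s : Fin r → ℂ, (∀ k, 3 / 2 < (s k).re) →
        Tendsto (fun B : ℕ × ℕ => mean (Fam ω B.1 B.2) fun p => ∏ k, Lfun p (s k) ^ n k) atTop
          (𝓝 ((∏ p ∈ Finset.univ.filter (fun p : Fin r × Fin r => p.1 ≤ p.2),
              dedekindZeta K (s p.1 + s p.2 - 1) ^
                (if p.1 = p.2 then n p.1 * (n p.1 - 1) / 2 else n p.1 * n p.2)) * H s)) := by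
  classical
  refine ⟨Hf K n, differentiableOn_Hf n, fun s hs => Hf_ne_zero n (fun k => (hs k).1)
    fun k => (hs k).2, fun s hs => ?_⟩
  exact tendsto_main ω n hs

end Pool.Agent.Results.MP_bf61d2_nt.MeanValues
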