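import Pool.Agent.T6.H61.TF.Fin2

/-!
# Mean values of L-functions over one-parameter families of elliptic curves over a number field

Let `K` be any number field, `a₀, a₁, b₀, b₁` integers of `K` with `R = a₀ b₁ - a₁ b₀ ≠ 0`, and let
`E_t : y² = x³ + (a₀ + a₁ t) x + (b₀ + b₁ t)`, `t` an integer of `K`: every line in the plane of the
coefficients `(a, b)` which does not pass through the origin. For all integers `n_1, …, n_r` the mean
value of `∏ L(E_t/K, s_k) ^ n_k` over `t` (Euler factors above `6R` omitted) exists in the region of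
absolute convergence `Re s_k > 3/2`, and it equals there

`∏_{j ≤ k} ζ_K(s_j + s_k - 1)^{e_{jk}} · ∏_k L_K(s_k, χ_D)^{-n_k} · H(s)`

with `H` holomorphic for `Re s_k > 5/6`, past the central point `s_k = 1`, and nonzero at real points.
Here `D = a₁ (a₁³ b₀ - a₀ a₁² b₁ - b₁³)` and `χ_D` is the quadratic residue symbol. The order of
this function at the centre is `N ρ - N (N - 1) / 2` where `N = ∑ n_k` and `ρ = 1` if `D` is a
nonzero square in `K`, and `ρ = 0` otherwise.
-/

set_option autoImplicit false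

namespace Pool.Agent.Results.MP_bf61d2_nt.ThinFamilies

open Filter Topology NumberField IsDedekindDomain Pool.Agent.T6.H9 Pool.Agent.T6.H61

/-- **Mean values of products of L-functions over one-parameter families of elliptic curves over a
number field continue past the central point; the order there.** -/
theorem result (K : Type) [Field K] [NumberField K] {ι : Type} [Fintype ι]
    (ω : Module.Basis ι ℤ (𝓞 K)) (P : Pencil K) (hR : P.R ≠ 0) (r : ℕ) (n : Fin r → ℤ) :
    ∃ H : (Fin r → ℂ) → ℂ,
      DifferentiableOn ℂ H {s | ∀ k, 5 / 6 < (s k).re} ∧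
      (∀ s : Fin r → ℂ, (∀ k, 5 / 6 < (s k).re ∧ (s k).im = 0) → H s ≠ 0) ∧
      (∀ s : Fin r → ℂ, (∀ k, 3 / 2 < (s k).re) →
        Tendsto (fun B : ι → ℕ => MeanL.mean (P.Fam ω B) fun t => ∏ k, P.L t (s k) ^ n k) atTop
          (𝓝 (limFun P.D n H s))) ∧
      DifferentiableOn ℂ (limFun P.D n H) {s | ∀ k, 1 < (s k).re} ∧
      Tendsto (fun ε : ℝ =>
          Real.log ‖limFun P.D n H fun _ => ((1 + ε : ℝ) : ℂ)‖ / Real.log ε) (𝓝[>] 0)
        (𝓝 ((∑ k, (n k : ℝ)) * rho P.D -
          (∑ k, (n k : ℝ)) * ((∑ k, (n k : ℝ)) - 1) / 2)) := by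
  classical
  have hd := TF.differentiableOn_HT P hR n
  refine ⟨TF.HT P n, hd, fun s hs => TF.HT_ne_zero P hR n (fun k => (hs k).1) fun k => (hs k).2,
    fun s hs => TF.tendsto_mean P hR ω n hs, TF.diff_limFun P.D n hd,
    TF.order_limFun P.D n hd (TF.HT_ne_zero P hR n (fun k => by norm_num) fun k => by simp)⟩

end Pool.Agent.Results.MP_bf61d2_nt.ThinFamilies
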